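import Pool.Agent.H91.L.W5h93_WC_Defs
import Pool.Agent.H91.L.W5h93_EX_Defs
import Pool.Agent.H89.L.Q193_LT_Prime
import Pool.Agent.H57.ZP.KDefs
import Pool.Agent.H57.ZP.Defs

/-!
# Alterations, finite coverings and completions of partial matrices: definitions
-/

set_option autoImplicit false

open CategoryTheory Limits AlgebraicGeometry Pool.Agent.Y116.UV Pool.Agent.H57.ZP

universe v u w

namespace Pool.Agent.H9.CD

variable {k : Type} [Field k]

/-- Every integral affine scheme of finite type over `k` of dimension `d` has an alteration in the class
`Q`: there are a scheme `X` of the class of dimension `d` and an open subscheme of `X` which is a finite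
free covering of a nonempty principal open subscheme `w ≠ 0` of the given scheme. (For the class of the
smooth projective varieties over a perfect field this is the theorem of de Jong and generic freeness.) -/
def HasAlterations (Q : Sch k → Prop) : Prop :=
  ∀ (A : Type) [CommRing A] [IsDomain A] [Algebra k A] [Algebra.FiniteType k A] (d : ℕ),
    ringKrullDim A = d → ∃ w : A, w ≠ 0 ∧
      ∃ (B : Type) (_ : CommRing B) (_ : Algebra k B) (_ : Algebra (Localization.Away w) B)
        (_ : IsScalarTower k (Localization.Away w) B) (_ : Module.Finite (Localization.Away w) B)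
        (_ : Module.Free (Localization.Away w) B) (_ : Nontrivial B) (X : Sch k) (j : aff k B ⟶ X),
        Q X ∧ IsOpenImmersion j.left ∧ topologicalKrullDim X.left = d

/-- For the finite free coverings `Spec B → Spec A` of positive degree, the weight complex of the base is
a direct factor of the weight complex of the covering (rational coefficients: the composition of the flat
pull-back and the push-forward is the multiplication by the degree). -/
def HasFiniteCovers {𝒜 : Type u} [Category.{v} 𝒜] [Preadditive 𝒜] [HasZeroObject 𝒜]
    (W : Sch k → HomotopyCategory 𝒜 (ComplexShape.up ℤ)) : Prop :=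
  ∀ (A B : Type) [CommRing A] [CommRing B] [Algebra k A] [Algebra k B] [Algebra A B]
    [IsScalarTower k A B] [Algebra.FiniteType k A] [Module.Finite A B] [Module.Free A B]
    [Nontrivial B], ∃ (s : W (aff k A) ⟶ W (aff k B)) (r : W (aff k B) ⟶ W (aff k A)), s ≫ r = 𝟙 _

/-- The number of the free places of a partial matrix. -/
noncomputable def free {n : ℕ} (Z : Fin n → Fin n → Option k) : ℕ :=
  Nat.card {x : Fin n × Fin n // Z x.1 x.2 = none}

/-- **The completions of partial matrices decide** the properties `C θ` (`θ` in an index set) of the
schemes of the class `Q`; the properties `P θ` are defined for all separated schemes of finite type.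

* `gl`: `C θ` is true for all schemes of the class if and only if `P θ` is true for the schemes `glC Z` of
  the invertible completions of all partial square matrices `Z` over `k`.
* `rk`: the same for the schemes `rkC Z` of the completions of rank at most three of all partial
  matrices `Z` over `k`.
* `gl_zero`, `rk_zero`: if all elements of `k` are quotients of integers (`k` is `ℚ` or `𝔽_p`), the same for
  the schemes of the invertible matrices, and of the matrices of rank at most three, with zeros at the
  places of a set `Z`.
* `list`: for every scheme `X` of the class there are finitely many partial matrices such that, for all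
  `θ`, `P θ` for the schemes of their invertible completions implies `C θ` for `X`; and the same with
  zeros at prescribed places, if all elements of `k` are quotients of integers.
* `small`: `P θ` for the scheme of the invertible completions of a partial matrix with `d` free places
  follows from `C θ` for the schemes of the class of dimension at most `d`. -/
structure CompletionsDecide {Θ : Type w} (Q : Sch k → Prop) (C P : Θ → Sch k → Prop) : Prop where
  gl : ∀ θ, (∀ X, Q X → C θ X) ↔ ∀ (n : ℕ) (Z : Fin n → Fin n → Option k), P θ (glC Z)
  rk : ∀ θ, (∀ X, Q X → C θ X) ↔ ∀ (m n : ℕ) (Z : Fin m → Fin n → Option k), P θ (rkC Z)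
  gl_zero : Pool.Agent.Q193.LT.Frac k → ∀ θ,
    (∀ X, Q X → C θ X) ↔ ∀ (n : ℕ) (Z : Finset (Fin n × Fin n)), P θ (glS k Z)
  rk_zero : Pool.Agent.Q193.LT.Frac k → ∀ θ,
    (∀ X, Q X → C θ X) ↔ ∀ (m n : ℕ) (Z : Finset (Fin m × Fin n)), P θ (rkS k Z)
  list : ∀ X, Q X →
    (∃ L : List ((n : ℕ) × (Fin n → Fin n → Option k)), ∀ θ,
      (∀ Z ∈ L, P θ (glC Z.2)) → C θ X) ∧
    (Pool.Agent.Q193.LT.Frac k → ∃ L : List ((n : ℕ) × Finset (Fin n × Fin n)), ∀ θ,
      (∀ Z ∈ L, P θ (glS k Z.2)) → C θ X)
  small : ∀ (θ : Θ) (n : ℕ) (Z : Fin n → Fin n → Option k),
    (∀ X, Q X → topologicalKrullDim X.left ≤ (free Z : WithBot ℕ∞) → C θ X) → P θ (glC Z)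

end Pool.Agent.H9.CD
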