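import Pool.Agent.H91.L.W5h93_EX_Main
import Pool.Agent.H91.L.W5h93_WC_Main
import Pool.Agent.H9.CD.Defs

/-!
# Dévissage with alterations
-/

set_option autoImplicit false

open CategoryTheory AlgebraicGeometry Pool.Agent.Y116.UV Pool.Agent.Z125.UN Pool.Agent.W5h93.EV
  Pool.Agent.W5h93.EX Topology TopologicalSpace

universe v u

namespace Pool.Agent.H9.CD

variable {k : Type} [Field k]

/-- The property descends along finite free coverings. -/
def FiniteDesc (P : Sch k → Prop) : Prop :=
  ∀ (A B : Type) [CommRing A] [CommRing B] [Algebra k A] [Algebra k B] [Algebra A B]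
    [IsScalarTower k A B] [Algebra.FiniteType k A] [Module.Finite A B] [Module.Free A B]
    [Nontrivial B], P (aff k B) → P (aff k A)

section

variable {P : Sch k → Prop} (hP : Bnd True P)

include hP

lemma alt_step (hF : FiniteDesc P) {Q : Sch k → Prop} (hQ : IsClass Q) (hM : HasAlterations Q)
    {m : ℕ} (hX : ForClass Q P m)
    (ih : ∀ Z : Sch k, FT True Z → topologicalKrullDim Z.left + 1 ≤ m → P Z)
    (B : Type) [CommRing B] [IsDomain B] [Algebra k B] [Algebra.FiniteType k B]
    (hB : ringKrullDim B ≤ m) : ∃ w : B, w ≠ 0 ∧ P (aff k (Localization.Away w)) := by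
  obtain ⟨d, hd⟩ : ∃ d : ℕ, ringKrullDim B = d := by
    have h0 : 0 ≤ ringKrullDim B := ringKrullDim_nonneg_of_nontrivial
    generalize ringKrullDim B = x at h0 hB
    induction x using WithBot.recBotCoe with
    | bot => exact absurd h0 (by decide)
    | coe e =>
      have h1 : e ≤ (m : ℕ∞) := by exact_mod_cast hB
      obtain ⟨d, hd⟩ := ENat.ne_top_iff_exists.mp (ne_top_of_le_ne_top (ENat.natCast_ne_top m) h1)
      exact ⟨d, by rw [← hd]; rfl⟩
  have hdm : d ≤ m := by
    rw [hd] at hB
    exact_mod_cast hB
  obtain ⟨w, hw0, C, i1, i2, i3, i4, i5, i6, i7, X, j, hQX, hj, hdim⟩ := hM B d hd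
  refine ⟨w, hw0, ?_⟩
  have hft' : Algebra.FiniteType k (Localization.Away w) :=
    Algebra.FiniteType.trans (S := B) inferInstance inferInstance
  refine hF (Localization.Away w) C ?_
  have hft := hQ.ft hQX
  have hj' : IsOpenImmersion j.left := hj
  let O : X.left.Opens := ⟨Set.range j.left, j.left.isOpenEmbedding.isOpen_range⟩
  have ht : IsTriple (cloMap X O) j := ⟨inferInstance, hj', range_cloMap _ _⟩
  have hXm : topologicalKrullDim X.left ≤ m := by
    rw [hdim]
    exact_mod_cast hdm
  have hPX := hX X hQX hXm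
  refine hP.opened _ _ hft ht ?_ hPX
  by_cases hne : IsEmpty (clo X O).left
  · exact Pool.Agent.W5h93.EU.p_of_empty hP _ (ft_clo hft) hne
  · rw [not_isEmpty_iff] at hne
    refine ih _ (ft_clo hft) ?_
    refine le_trans ?_ hXm
    have : IrreducibleSpace X.left := hQ.irreducible X hQX
    refine Pool.Agent.W5h93.EU.dim_closed_lt (X := X.left) (f := (cloMap X O).left)
      (cloMap X O).left.isClosedEmbedding fun h => ?_
    rw [range_cloMap] at h
    obtain ⟨x⟩ : Nonempty (PrimeSpectrum C) := inferInstance
    have h1 : j.left x ∈ (O : Set X.left)ᶜ := by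
      rw [h]
      trivial
    exact h1 ⟨x, rfl⟩

/-- **From the schemes of the class to all schemes**, with alterations. -/
theorem devissage_alt [PerfectField k] (hF : FiniteDesc P) {Q : Sch k → Prop} (hQ : IsClass Q)
    {n : ℕ} (hM : HasAlterations Q) (hX : ForClass Q P n) (U : Sch k) (hU : FT True U)
    (hdim : topologicalKrullDim U.left ≤ n) : P U := by
  have step : ∀ m : ℕ, m ≤ n → (∀ Z : Sch k, FT True Z → topologicalKrullDim Z.left + 1 ≤ m → P Z) →
      ∀ U : Sch k, FT True U → topologicalKrullDim U.left ≤ m → P U := by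
    intro m hm ih
    have hmn : (m : WithBot ℕ∞) ≤ n := by exact_mod_cast hm
    refine of_affine_dim hP fun A _ _ _ hA => ?_
    refine noeth hP (fun B _ _ hB => p_empty hP B hB) fun p hp => ?_
    have : Algebra.FiniteType k (A ⧸ p) :=
      Algebra.FiniteType.of_surjective (Ideal.Quotient.mkₐ k _) (Ideal.Quotient.mkₐ_surjective k _)
    refine alt_step hP hF hQ (m := m) hM
      (fun X hX1 hX2 => hX X hX1 (hX2.trans hmn)) ih (A ⧸ p) ?_
    exact (ringKrullDim_quotient_le p).trans hA
  have key : ∀ m : ℕ, m ≤ n → ∀ U : Sch k, FT True U → topologicalKrullDim U.left ≤ m → P U := by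
    intro m
    induction m with
    | zero =>
      intro hm
      refine step 0 hm fun Z hZ hd => ?_
      by_cases he : IsEmpty Z.left
      · exact Pool.Agent.W5h93.EU.p_of_empty hP Z hZ he
      · rw [not_isEmpty_iff] at he
        exfalso
        have hn : Nonempty (IrreducibleCloseds Z.left) :=
          ⟨⟨closure {Classical.arbitrary Z.left}, isIrreducible_singleton.closure,
            isClosed_closure⟩⟩
        have h0 : (0 : WithBot ℕ∞) ≤ topologicalKrullDim Z.left := Order.krullDim_nonneg
        have h1 : (0 : WithBot ℕ∞) + 1 ≤ 0 := (add_le_add_left h0 1).trans (by exact_mod_cast hd)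
        rw [zero_add] at h1
        exact absurd h1 (by decide)
    | succ m ih =>
      intro hm
      refine step (m + 1) hm fun Z hZ hd => ih (by omega) Z hZ ?_
      generalize topologicalKrullDim Z.left = x at hd
      induction x using WithBot.recBotCoe with
      | bot => exact bot_le
      | coe e =>
        have h1 : e + 1 ≤ ((m + 1 : ℕ) : ℕ∞) := by exact_mod_cast hd
        have h2 : e ≤ (m : ℕ∞) := by
          rw [Nat.cast_add, Nat.cast_one] at h1
          exact (ENat.add_le_add_iff_right ENat.one_ne_top).mp h1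
        exact_mod_cast h2
  exact key n le_rfl U hU hdim

end

end Pool.Agent.H9.CD
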