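import Pool.Agent.H9.CD.Alt
import Pool.Agent.H57.ZP.KMain
import Pool.Agent.H91.QS.Main
import Pool.Agent.H89.L.W5h93_EU_Fin

/-!
# The completions of partial matrices decide
-/

set_option autoImplicit false

open CategoryTheory Limits AlgebraicGeometry Pool.Agent.Y116.UV Pool.Agent.Z125.UN
  Pool.Agent.W5h93.EV Pool.Agent.W5h93.EX Pool.Agent.W5h93.WC Pool.Agent.W5h68.CP
  Pool.Agent.Q193.LT Pool.Agent.H57.ZP MonoidalCategory

universe v u w

namespace Pool.Agent.H9.CD

variable {k : Type} [Field k]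

section fin

variable {Θ : Type w} {ι : Type} (g : ι → Sch k) (P : Θ → Sch k → Prop)

/-- `P θ X` follows from finitely many `P θ (g i)`, the same ones for all `θ`. -/
def Few (X : Sch k) : Prop := ∃ L : List ι, ∀ θ, (∀ i ∈ L, P θ (g i)) → P θ X

variable {g P}

lemma Few.one {X Y : Sch k} (h : ∀ θ, P θ X → P θ Y) (hX : Few g P X) : Few g P Y := by
  obtain ⟨L, hL⟩ := hX
  exact ⟨L, fun θ h1 => h θ (hL θ h1)⟩

lemma Few.two {X Y W : Sch k} (h : ∀ θ, P θ X → P θ Y → P θ W) (hX : Few g P X)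
    (hY : Few g P Y) : Few g P W := by
  obtain ⟨L, hL⟩ := hX
  obtain ⟨M, hM⟩ := hY
  exact ⟨L ++ M, fun θ h1 => h θ (hL θ fun i hi => h1 i (List.mem_append_left _ hi))
    (hM θ fun i hi => h1 i (List.mem_append_right _ hi))⟩

lemma Few.zero {X : Sch k} (h : ∀ θ, P θ X) : Few g P X := ⟨[], fun θ _ => h θ⟩

lemma Few.gen (i : ι) : Few g P (g i) := ⟨[i], fun _ h => h i (List.mem_singleton_self i)⟩

theorem bnd_few (hP : ∀ θ, Bnd True (P θ)) : Bnd True (Few g P) where
  iso hX e := Few.one fun θ => (hP θ).iso hX e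
  total i j hX ht := Few.two fun θ => (hP θ).total i j hX ht
  opened i j hX ht := Few.two fun θ => (hP θ).opened i j hX ht
  closed i j hX ht := Few.two fun θ => (hP θ).closed i j hX ht
  space m := Few.zero fun θ => (hP θ).space m
  jouanolou A _ _ _ m f U j hj hr := Few.one fun θ => (hP θ).jouanolou A m f U j hj hr
  torus A _ _ _ := Few.one fun θ => (hP θ).torus A
  bundle A _ _ _ m f U j hj hr := Few.one fun θ => (hP θ).bundle A m f U j hj hr

end fin

lemma dim_loc {σ : Type} [Finite σ] (f : MvPolynomial σ k) :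
    ringKrullDim (Localization.Away f) ≤ (Nat.card σ : WithBot ℕ∞) := by
  refine (dim_away f).trans ?_
  rw [MvPolynomial.ringKrullDim_of_isNoetherianRing, ringKrullDim_eq_zero_of_field, zero_add]

lemma ft_glC {n : ℕ} (Z : Fin n → Fin n → Option k) : FT True (glC Z) := by
  have h1 : Algebra.FiniteType k (Localization.Away (fillMat Z).det) :=
    Algebra.FiniteType.trans (S := MvPolynomial {x : Fin n × Fin n // Z x.1 x.2 = none} k)
      inferInstance inferInstance
  exact ft_aff True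

lemma ft_glS {n : ℕ} (Z : Finset (Fin n × Fin n)) : FT True (glS k Z) := by
  have h1 : Algebra.FiniteType k (Localization.Away (genMat k Z).det) :=
    Algebra.FiniteType.trans (S := MvPolynomial {x : Fin n × Fin n // x ∉ Z} k) inferInstance
      inferInstance
  exact ft_aff True

lemma dim_glC {n : ℕ} (Z : Fin n → Fin n → Option k) :
    topologicalKrullDim (glC Z).left ≤ (free Z : WithBot ℕ∞) := by
  rw [glC, topDim_aff]
  exact dim_loc _

/-- **The completions of partial matrices decide.** -/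
theorem completionsDecide [PerfectField k] {Θ : Type w} {Q : Sch k → Prop}
    {C P : Θ → Sch k → Prop} (hP : ∀ θ, Bnd True (P θ)) (hF : ∀ θ, FiniteDesc (P θ))
    (hQ : IsClass Q) (hA : HasAlterations Q) (h : ∀ θ X, Q X → (C θ X ↔ P θ X)) :
    CompletionsDecide Q C P := by
  have hall : ∀ θ, (∀ X, Q X → C θ X) → ∀ X, FT True X → P θ X := fun θ h1 X hX => by
    obtain ⟨n, hn⟩ := Pool.Agent.W5h93.EU.dim_finite X hX
    exact devissage_alt (hP θ) (hF θ) hQ hA (fun Y hY _ => (h θ Y hY).mp (h1 Y hY)) X hX hn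
  refine ⟨fun θ => ⟨fun h1 n Z => hall θ h1 _ (ft_glC Z), fun h1 X hX => ?_⟩,
    fun θ => ⟨fun h1 m n Z => hall θ h1 _ (ft_aff True), fun h1 X hX => ?_⟩,
    fun hk θ => ⟨fun h1 n Z => hall θ h1 _ (ft_glS Z), fun h1 X hX => ?_⟩,
    fun hk θ => ⟨fun h1 m n Z => hall θ h1 _ (ft_aff True), fun h1 X hX => ?_⟩,
    fun X hX => ⟨?_, fun hk => ?_⟩, fun θ n Z h1 => ?_⟩
  · exact (h θ X hX).mpr (universal_glC (hP θ) h1 X (hQ.ft hX))
  · exact (h θ X hX).mpr (universal_rkC (hP θ) h1 X (hQ.ft hX))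
  · exact (h θ X hX).mpr (universal_gl hk (hP θ) h1 X (hQ.ft hX))
  · exact (h θ X hX).mpr (universal_rk hk (hP θ) h1 X (hQ.ft hX))
  · obtain ⟨L, hL⟩ := universal_glC
      (bnd_few (g := fun Z : (n : ℕ) × (Fin n → Fin n → Option k) => glC Z.2) hP)
      (fun n Z => Few.gen (g := fun Z : (n : ℕ) × (Fin n → Fin n → Option k) => glC Z.2) ⟨n, Z⟩)
      X (hQ.ft hX)
    exact ⟨L, fun θ h1 => (h θ X hX).mpr (hL θ h1)⟩
  · obtain ⟨L, hL⟩ := universal_gl hk
      (bnd_few (g := fun Z : (n : ℕ) × Finset (Fin n × Fin n) => glS k Z.2) hP)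
      (fun n Z => Few.gen (g := fun Z : (n : ℕ) × Finset (Fin n × Fin n) => glS k Z.2) ⟨n, Z⟩) X
      (hQ.ft hX)
    exact ⟨L, fun θ h1 => (h θ X hX).mpr (hL θ h1)⟩
  · exact devissage_alt (hP θ) (hF θ) hQ hA (fun X hX hd => (h θ X hX).mp (h1 X hX hd)) _
      (ft_glC Z) (dim_glC Z)

section wc

variable {𝒜 : Type u} [Category.{v} 𝒜] [Preadditive 𝒜] [HasZeroObject 𝒜]
  [HasBinaryBiproducts 𝒜] [MonoidalCategory 𝒜] [MonoidalPreadditive 𝒜] {T : ℤ → 𝒜}
  {W : Sch k → HomotopyCategory 𝒜 (ComplexShape.up ℤ)}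

omit [MonoidalCategory 𝒜] [MonoidalPreadditive 𝒜] in
lemma finiteDesc_null {V : Cls 𝒜} (hc : HasFiniteCovers W) :
    FiniteDesc fun X : Sch k => Null V.prop (W X).as := by
  intro A B _ _ _ _ _ _ _ _ _ _ h1
  obtain ⟨s, r, hs⟩ := hc A B
  exact Null.of_retract s r hs h1

/-- **The completions of partial matrices decide, for classes of motives closed under sums, retracts and
Tate twists.** -/
theorem completionsDecide_wc [PerfectField k] {Θ : Type w} {V : Θ → Cls 𝒜}
    (hT : ∀ (θ : Θ) (j : ℤ) (A : 𝒜), (V θ).prop A → (V θ).prop (A ⊗ T j))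
    (h0 : ∀ θ, (V θ).prop (T 0)) (hW : IsWeightComplex T W) (hc : HasFiniteCovers W)
    {Q : Sch k → Prop} (hQ : IsClass Q) (hA : HasAlterations Q) (h : Sch k → 𝒜)
    (hh : ∀ X, Q X → Nonempty (W X ≅ cpx (h X))) :
    CompletionsDecide Q (fun θ X => (V θ).prop (h X)) (fun θ X => Null (V θ).prop (W X).as) :=
  completionsDecide (fun θ => bnd_wc (hT θ) (h0 θ) hW) (fun θ => finiteDesc_null hc) hQ hA
    fun θ X hX => by
      obtain ⟨e⟩ := hh X hX
      rw [← null_cpx]
      exact ⟨fun h1 => h1.of_iso e.symm, fun h1 => h1.of_iso e⟩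

end wc

end Pool.Agent.H9.CD
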